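import Pool.Agent.MP_fcd29e_an.H11.CS

/-! Coordinates on the space of blocks. -/

set_option autoImplicit false

open Pool.Agent.MP_fcd29e_an.H11

namespace Pool.Agent.MP_fcd29e_an.H16

theorem sxt : SXT := by
  intro ι _ m n _ X₁ wi _ _ _ _ Adm h
  obtain ⟨k, L⟩ : ∃ k : ℕ, Nonempty (X₁ ≃L[ℂ] (Fin k → ℂ)) :=
    ⟨_, ⟨(Module.finBasis ℂ X₁).equivFunL⟩⟩
  obtain ⟨L⟩ := L
  refine ⟨k, fun s e w φ => Adm s ((L.symm : (Fin k → ℂ) →L[ℂ] X₁).comp e) w φ,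
    fun s hs c hc e w φ e' w' φ' h1 h2 => ?_, fun s z₀ h1 h2 h3 => ?_,
    fun s hs e w φ h1 => ?_, fun s hs e w φ h1 => h.pos s hs _ w φ h1,
    fun s₀ hs e₀ w₀ φ₀ h1 y H => ?_, fun s₀ hs e₀ w₀ φ₀ h1 => ?_⟩
  · obtain ⟨G, g1, g2, g3⟩ := h.compat s hs c hc _ w φ _ w' φ' h1 h2
    exact ⟨G, g1, fun v => L.symm.injective (by rw [map_smul]; exact g2 v), g3⟩
  · obtain ⟨e, w, φ, g1, g2, g3⟩ := h.chart s z₀ h1 h2 h3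
    refine ⟨fun z => (L : X₁ →L[ℂ] (Fin k → ℂ)).comp (e z), w, φ,
      ((ContinuousLinearMap.compL ℂ (V ι) X₁ (Fin k → ℂ) L).analyticAt _).comp g1, g2,
      g3.mono fun z hz => ⟨?_, hz.2⟩⟩
    have : (L.symm : (Fin k → ℂ) →L[ℂ] X₁).comp ((L : X₁ →L[ℂ] (Fin k → ℂ)).comp (e z)) = e z :=
      ContinuousLinearMap.ext fun v => L.symm_apply_apply (e z v)
    rw [this]
    exact hz.1
  · exact Function.Injective.of_comp (f := L.symm) (h.inj s hs _ w φ h1)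
  · obtain ⟨u, hu⟩ := h.rel s₀ hs _ w₀ φ₀ h1 (L.symm y) fun d hd f₁ f₂ a1 a2 l₁ l₂ R =>
      H d hd f₁ f₂ a1 a2 (l₁.comp (L.symm : (Fin k → ℂ) →L[ℂ] X₁))
        (l₂.comp (L.symm : (Fin k → ℂ) →L[ℂ] X₁)) fun s hs e w φ a x => R s hs _ w φ a x
    exact ⟨u, L.symm.injective hu⟩
  · obtain ⟨Q, c, c0, q1, q2⟩ := h.quad s₀ hs _ w₀ φ₀ h1
    exact ⟨Q.bilinearComp (L.symm : (Fin k → ℂ) →L[ℂ] X₁) (L.symm : (Fin k → ℂ) →L[ℂ] X₁), c, c0,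
      fun s hs e w φ a x hx => q1 s hs _ w φ a x hx, q2⟩

end Pool.Agent.MP_fcd29e_an.H16
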