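import Pool.Agent.MP_fcd29e_an.H31.Spec3
import Pool.Agent.MP_fcd29e_an.H67.BM2

/-! Convolution with integrable kernels and the Fourier transform. -/

set_option autoImplicit false

namespace Pool.Agent.MP_fcd29e_an.H16

open MeasureTheory Complex Set Filter Topology Metric Pool.Agent.MP_fcd29e_an.H81
  Pool.Agent.MP_fcd29e_an.H31
open scoped ContDiff ComplexConjugate ENNReal NNReal FourierTransform SchwartzMap Convolution

namespace FB3

variable {N : ℕ}

theorem n2_eq (f : E N → ℂ) : N2 f = eLpNorm f 2 volume ^ 2 := by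
  have h := eLpNorm_nnreal_pow_eq_lintegral (f := f) (μ := volume) (p := 2) two_ne_zero
  simp only [ENNReal.coe_ofNat, NNReal.coe_ofNat, ENNReal.rpow_ofNat] at h
  rw [h]
  refine lintegral_congr fun x => ?_
  rw [ENNReal.ofReal_pow (norm_nonneg _), ofReal_norm]

theorem f_cont {k : E N → ℂ} (hk : Integrable k) : Continuous (𝓕 k) :=
  VectorFourier.fourierIntegral_continuous Real.continuous_fourierChar
    (by simpa using continuous_inner) hk

theorem f_bound (k : E N → ℂ) (ξ : E N) : ‖𝓕 k ξ‖ ≤ ∫ y, ‖k y‖ :=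
  VectorFourier.norm_fourierIntegral_le_integral_norm _ _ _ _ _

theorem f_neg (k : E N → ℂ) (ξ : E N) : 𝓕 (fun y => k (-y)) ξ = 𝓕 k (-ξ) := by
  rw [← Real.fourierInv_eq_fourier_neg, Real.fourierInv_eq_fourier_comp_neg]

theorem scale {F : Type} [NormedAddCommGroup F] [NormedSpace ℝ F] (f : E N → F) {t : ℝ}
    (ht : 0 < t) : ∫ y, f (t⁻¹ • y) = t ^ (2 * N) • ∫ y, f y := by
  rw [Measure.integral_comp_inv_smul_of_nonneg volume f ht.le, finrank_E]

theorem sc_all {k : E N → ℂ} (hk : Integrable k) {t : ℝ} (ht : 0 < t) :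
    Integrable (Sc t k) ∧ ∫ y, ‖Sc t k y‖ = ∫ y, ‖k y‖ ∧ ∫ y, Sc t k y = ∫ y, k y ∧
      ∀ ξ, 𝓕 (Sc t k) ξ = 𝓕 k (t • ξ) := by
  have hp : (0 : ℝ) < t ^ (2 * N) := pow_pos ht _
  have hp' : ((t ^ (2 * N) : ℝ) : ℂ) ≠ 0 := ofReal_ne_zero.2 hp.ne'
  refine ⟨(hk.comp_smul (inv_ne_zero ht.ne')).div_const _, ?_, ?_, fun ξ => ?_⟩
  · have e : ∀ y, ‖Sc t k y‖ = ‖k (t⁻¹ • y)‖ / t ^ (2 * N) := fun y => by
      rw [Sc, norm_div, Complex.norm_real, Real.norm_of_nonneg hp.le]
    simp only [e]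
    rw [integral_div, scale (fun y => ‖k y‖) ht, smul_eq_mul, mul_div_cancel_left₀ _ hp.ne']
  · unfold Sc
    rw [integral_div, scale k ht, real_smul, mul_div_cancel_left₀ _ hp']
  · rw [Real.fourier_eq', Real.fourier_eq']
    have e : ∀ v : E N, cexp ((-2 * Real.pi * inner ℝ v ξ : ℝ) * I) • Sc t k v =
        (fun w : E N => cexp ((-2 * Real.pi * inner ℝ w (t • ξ) : ℝ) * I) • k w) (t⁻¹ • v) /
          ((t ^ (2 * N) : ℝ) : ℂ) := fun v => by
      simp only [Sc, smul_eq_mul]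
      rw [real_inner_smul_left, real_inner_smul_right, ← mul_assoc t⁻¹, inv_mul_cancel₀ ht.ne',
        one_mul, mul_div_assoc]
    simp only [e]
    rw [integral_div,
      scale (fun w : E N => cexp ((-2 * Real.pi * inner ℝ w (t • ξ) : ℝ) * I) • k w) ht,
      real_smul, mul_div_cancel_left₀ _ hp']

theorem tst_l2 {ψ : E N → ℂ} (h : Tst ψ) : MemLp ψ 2 volume :=
  h.1.continuous.memLp_of_hasCompactSupport h.2

theorem tst_int {ψ : E N → ℂ} (h : Tst ψ) : Integrable ψ :=
  h.1.continuous.integrable_of_hasCompactSupport h.2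

theorem young (hy : StmtYG) {k g : E N → ℂ} (hk : Integrable k) (hg : MemLp g 2 volume) :
    N2 (Cv k g) ≤ ENNReal.ofReal ((∫ y, ‖k y‖) ^ 2) * N2 g := by
  have h := ((hy N).1 k g hk hg).2.1
  rw [n2_eq, n2_eq, ENNReal.ofReal_pow (integral_nonneg fun _ => norm_nonneg _),
    ofReal_integral_norm_eq_lintegral_enorm hk, ← eLpNorm_one_eq_lintegral_enorm, ← mul_pow]
  exact pow_le_pow_left' h 2

theorem pair (hy : StmtYG) {k g ψ : E N → ℂ} (hk : Integrable k) (hg : MemLp g 2 volume)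
    (hψ : Tst ψ) : ∫ x, Cv k g x * ψ x = ∫ y, g y * Cv (fun x => k (-x)) ψ y := by
  have hm : AEStronglyMeasurable (fun p : E N × E N => k (p.1 - p.2) * g p.2)
      (volume.prod volume) := hg.1.convolution_integrand (ContinuousLinearMap.mul ℝ ℂ).flip hk.1
  have hm' : AEStronglyMeasurable (fun p : E N × E N => k (p.1 - p.2) * g p.2 * ψ p.1)
      (volume.prod volume) := hm.mul (hψ.1.continuous.comp continuous_fst).aestronglyMeasurable
  have hi : Integrable (fun p : E N × E N => k (p.1 - p.2) * g p.2 * ψ p.1)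
      (volume.prod volume) := by
    rw [integrable_prod_iff hm']
    refine ⟨((hy N).1 k g hk hg).2.2.mono fun x hx => hx.mul_const (ψ x), ?_⟩
    have h1 := ((hy N).1 (fun y => (‖k y‖ : ℝ)) (fun y => (‖g y‖ : ℝ)) hk.norm.ofReal
      hg.norm.ofReal).1
    refine (h1.integrable_mul (tst_l2 hψ)).norm.congr (Eventually.of_forall fun x => ?_)
    have e : ∫ y, ((‖k (x - y)‖ : ℝ) : ℂ) * ((‖g y‖ : ℝ) : ℂ) =
        ((∫ y, ‖k (x - y)‖ * ‖g y‖ : ℝ) : ℂ) := by
      rw [← integral_complex_ofReal]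
      simp only [ofReal_mul]
    simp only [Pi.mul_apply, norm_mul]
    rw [e, integral_mul_const, Complex.norm_real,
      Real.norm_of_nonneg (integral_nonneg fun _ => mul_nonneg (norm_nonneg _) (norm_nonneg _))]
  have h2 := integral_integral_swap (f := fun x y => k (x - y) * g y * ψ x) hi
  simp only [Cv, ← integral_mul_const, ← integral_const_mul, neg_sub]
  rw [h2]
  refine integral_congr_ae (Eventually.of_forall fun y => integral_congr_ae
    (Eventually.of_forall fun x => ?_))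
  simp only
  ring

theorem cv_eq (k ψ : E N → ℂ) : Cv k ψ = k ⋆[ContinuousLinearMap.mul ℂ ℂ, volume] ψ := by
  funext x; rw [convolution_eq_swap]; rfl

theorem cv_comb {k ψ : E N → ℂ} (hk : Integrable k) (hψ : Tst ψ) (v w x : E N) (c : ℂ) :
    (fderiv ℝ (Cv k ψ) x v + c * fderiv ℝ (Cv k ψ) x w) / 2 =
      ∫ y, k (x - y) * ((fderiv ℝ ψ y v + c * fderiv ℝ ψ y w) / 2) := by
  have hl := hk.locallyIntegrable
  have h1 : fderiv ℝ (Cv k ψ) x v = _ := H67.conv_fderiv hl hψ x v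
  have h2 : fderiv ℝ (Cv k ψ) x w = _ := H67.conv_fderiv hl hψ x w
  have i1 := H67.conv_int hl (H67.tst_fd hψ v).1.continuous (H67.tst_fd hψ v).2 x
  have i2 := H67.conv_int hl (H67.tst_fd hψ w).1.continuous (H67.tst_fd hψ w).2 x
  rw [h1, h2, ← integral_const_mul, ← integral_add i1 (i2.const_mul c), ← integral_div]
  refine integral_congr_ae (Eventually.of_forall fun y => ?_)
  simp only
  ring

end FB3

open FB3 in
theorem fb (L : Lv0) (_h : StmtFA) : StmtFB := by
  intro N k hk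
  refine ⟨f_cont hk, f_bound k, f_neg k, fun t ht => sc_all hk ht, fun g hg =>
    ⟨((L.yg N).1 k g hk hg).1, young L.yg hk hg, fun ψ hψ => pair L.yg hk hg hψ⟩,
    fun hc ψ hψ => ⟨⟨H67.conv_smooth hk.locallyIntegrable hψ, ?_⟩, fun ξ => ?_, fun j => ⟨?_, ?_⟩⟩⟩
  · rw [cv_eq]
    exact hc.convolution _ hψ.2
  · rw [cv_eq]
    exact Real.fourier_mul_convolution_eq hk (tst_int hψ) ξ
  · funext x
    have := cv_comb hk hψ (ee j) (I • ee j) x (-I)
    simpa only [dz, Cv, neg_mul, ← sub_eq_add_neg] using this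
  · funext x
    exact cv_comb hk hψ (ee j) (I • ee j) x I

end Pool.Agent.MP_fcd29e_an.H16
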