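import Pool.Agent.MP_fcd29e_an.H81.Spec

/-! The Newton potential solves the equation on the punctured space. -/

set_option autoImplicit false

open Pool.Agent.MP_fcd29e_an.H81 MeasureTheory Complex Set Filter Topology Metric
open scoped ContDiff ComplexConjugate ENNReal NNReal

namespace Pool.Agent.MP_fcd29e_an.H16

variable {N : ℕ}

theorem ae_ne_zero (j : Fin N) : ∀ᵐ y : E N, y ≠ 0 := by
  have : Nonempty (Fin N) := ⟨j⟩
  exact Measure.ae_ne _ _

theorem int_E0 (j : Fin N) (f : E N → ℂ) : ∫ z in E0 N, f z = ∫ z, f z := by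
  have : Nonempty (Fin N) := ⟨j⟩
  rw [restrict_compl_singleton]

theorem rem_succ {q : ℕ} (j : Fin N) (J : Fin (q + 1) → Fin N) (i : Fin (q + 1)) :
    (i.succ).removeNth (Fin.cons j J : Fin (q + 1 + 1) → Fin N) =
      (Fin.cons j (i.removeNth J) : Fin (q + 1) → Fin N) := by
  funext a
  refine Fin.cases ?_ (fun b => ?_) a
  · simp [Fin.removeNth]
  · simp [Fin.removeNth]

theorem ec_hom (L : Lv0) {m b : ℤ} {g : E N → ℂ} (hg : Hom (E0 N) m b g) (j : Fin N) (c : ℂ)
    (hc : c ≠ 0) (x : E N) : Ec j g (c • x) = c ^ m * conj c ^ (b + 1) * Ec j g x := by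
  have hN : 1 ≤ N := j.pos
  have h0 := (L.t0.1 N c hc).1 fun y => Ek j (c • x - y) * g y
  have hn : ((‖c‖ ^ (2 * N) : ℝ) : ℂ) ≠ 0 := by
    exact_mod_cast pow_ne_zero _ (norm_ne_zero_iff.2 hc)
  have hc' : conj c ≠ 0 := by simpa using hc
  have h1 : ∫ y, Ek j (c • x - c • y) * g (c • y) =
      ((‖c‖ ^ (2 * N) : ℝ) : ℂ)⁻¹ * (c ^ m * conj c ^ (b + 1) * Ec j g x) := by
    rw [Ec, ← integral_const_mul, ← integral_const_mul]
    refine integral_congr_ae ((ae_ne_zero j).mono fun y hy => ?_)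
    show Ek j (c • x - c • y) * g (c • y) = _
    rw [← smul_sub, (((L.bm1 N hN).2.1 j).2.2.2.1 (x - y)).2.2 c hc, hg c hc y hy,
      zpow_add_one₀ hc']
    ring
  rw [h1] at h0
  exact (mul_left_cancel₀ (inv_ne_zero hn) h0).symm

theorem new (L : Lv0) (h : StmtORI) : StmtNEW := by
  intro N q m g hg
  refine ⟨fun J c hc z _ => ?_, fun ha z J σ => ?_, fun κ hκ hL h1 h2 hD hF J ψ hψ => ?_⟩
  · simp only [Nw, Finset.mul_sum]
    refine Finset.sum_congr rfl fun j _ => ?_
    rw [ec_hom L (hg _) j c hc z]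
    congr 3
    push_cast
    ring
  · simp only [Nw, Finset.mul_sum]
    refine Finset.sum_congr rfl fun j _ => ?_
    rw [Ec, Ec, ← integral_const_mul]
    refine integral_congr_ae ((ae_ne_zero j).mono fun y hy => ?_)
    have := ((L.al1 N q 0 0).2 _ (ha y hy)).2.2.1 j J σ
    show Ek j (z - y) * g (Fin.cons j (J ∘ σ)) y = _ * (Ek j (z - y) * g (Fin.cons j J) y)
    rw [show g (Fin.cons j (J ∘ σ)) y = _ from this]
    ring
  · have hN : 1 ≤ N := (J 0).pos
    have hDI : ∀ K, DI (g K) := fun K =>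
      (L.t3.2 N).2.1 m (-(q + 1 : ℕ)) (g K) (hL K) (hg K) (by omega) (by omega)
    have hT : ∀ l, Tst (dzb l ψ) := fun l =>
      have := (((L.t1 N (E0 N) isOpen_E0 (by simp)).2.2.2.1 ψ hψ).2.2.1 l).2
      ⟨this.1, this.2.1⟩
    obtain ⟨b1, -, b3⟩ := L.bm2 N hN
    obtain ⟨c1, c2⟩ := b1 ψ ⟨hψ.1, hψ.2.1⟩
    have hI : ∀ (K : Fin (q + 1) → Fin N) (j l : Fin N),
        Integrable fun z => Ec j (g K) z * dzb l ψ z := fun K j l =>
      (b3 _ (hDI K) j).2.1.integrable_smul_right_of_hasCompactSupport (hT l).1.continuous (hT l).2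
    have key : ∀ j : Fin N, ∑ i : Fin (q + 1), (-1) ^ (i : ℕ) *
        ∫ y, g (Fin.cons j (i.removeNth J)) y * Ec j (dzb (J i) ψ) y =
        ∫ y, g J y * Ec j (dzb j ψ) y := by
      intro j
      obtain ⟨d1, -, -, d4, C, d5⟩ := c2 j
      have := h N (q + 1) m g κ hκ (fun K => ⟨hL K, hg K⟩) h1 h2 hD hF (Ec j ψ) C d1 d5
        (Fin.cons j J)
      rw [Fin.sum_univ_succ] at this
      simp only [rem_succ, Fin.cons_succ, Fin.cons_zero, Fin.removeNth_zero, Fin.tail_cons,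
        Fin.val_zero, pow_zero, one_mul, Fin.val_succ, pow_succ, (d4 _).2, mul_neg, mul_one,
        neg_mul, Finset.sum_neg_distrib] at this
      linear_combination -this
    rw [int_E0 (J 0), int_E0 (J 0)]
    have e1 : ∀ z, ∑ i : Fin (q + 1), (-1) ^ (i : ℕ) * Nw g (i.removeNth J) z * dzb (J i) ψ z =
        ∑ j, ∑ i : Fin (q + 1), (-1) ^ (i : ℕ) *
          (Ec j (g (Fin.cons j (i.removeNth J))) z * dzb (J i) ψ z) := by
      intro z
      rw [Finset.sum_comm]
      refine Finset.sum_congr rfl fun i _ => ?_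
      simp only [Nw, Finset.mul_sum, Finset.sum_mul, mul_assoc]
    have e2 : ∀ z, g J z * ψ z = ∑ j, g J z * Ec j (dzb j ψ) z := fun z => by
      rw [← Finset.mul_sum, c1]
    simp only [e1, e2]
    rw [integral_finsetSum _ fun j _ => integrable_finsetSum _ fun i _ => (hI _ _ _).const_mul _,
      integral_finsetSum _ fun j _ => ((b3 _ (hDI J) j).2.2 _ (hT j)).1, ← Finset.sum_neg_distrib]
    refine Finset.sum_congr rfl fun j _ => ?_
    rw [integral_finsetSum _ fun i _ => (hI _ _ _).const_mul _, ← key j,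
      ← Finset.sum_neg_distrib]
    refine Finset.sum_congr rfl fun i _ => ?_
    rw [integral_const_mul, ((b3 _ (hDI _) j).2.2 _ (hT _)).2, mul_neg]

end Pool.Agent.MP_fcd29e_an.H16
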