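import Pool.Agent.MP_fcd29e_an.H81.Spec2
import Pool.Agent.MP_9fca84_an.H66.Param

/-! Division by the local equation. -/

set_option autoImplicit false

open Pool.Agent.MP_fcd29e_an.H81 MeasureTheory Complex Set Filter Topology Metric
open scoped ContDiff ComplexConjugate ENNReal NNReal

namespace Pool.Agent.MP_fcd29e_an.H16

theorem th2 : StmtTH2 := by
  intro N ρ K q B f u hq hG B' G hB' hqB' hol hz
  obtain ⟨r, hr, hball⟩ := Metric.isOpen_iff.1 (hG.opn.inter hB') q ⟨hG.mem, hqB'⟩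
  have hfq : f q = 0 := (hG.zero q hG.mem).2 hq
  have hc : ContinuousOn (fun z : E N => ‖z - q‖ + ‖f z‖ * ‖u‖) B :=
    (continuous_id.sub continuous_const).norm.continuousOn.add
      (hG.hol.1.continuousOn.norm.mul continuousOn_const)
  set U : Set (E N) := B ∩ (fun z : E N => ‖z - q‖ + ‖f z‖ * ‖u‖) ⁻¹' Iio r with hU
  have hUo : IsOpen U := hc.isOpen_inter_preimage hG.opn isOpen_Iio
  have hin : ∀ z ∈ U, ∀ t ∈ Icc (0 : ℝ) 1, z - (t * f z) • u ∈ B ∩ B' := by
    intro z hzU t ht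
    apply hball
    rw [mem_ball, dist_eq_norm, sub_right_comm]
    have h1 : ‖z - q‖ + ‖f z‖ * ‖u‖ < r := hzU.2
    have h2 : ‖((t : ℂ) * f z) • u‖ ≤ ‖f z‖ * ‖u‖ := by
      rw [norm_smul, norm_mul, Complex.norm_real, Real.norm_of_nonneg ht.1]
      exact mul_le_mul_of_nonneg_right (mul_le_of_le_one_left (norm_nonneg _) ht.2)
        (norm_nonneg _)
    exact lt_of_le_of_lt ((norm_sub_le _ _).trans (by linarith)) h1
  let Φ : E N × ℝ → ℂ := fun w => ∑ j, u j * dz j G (w.1 - ((w.2 : ℂ) * f w.1) • u)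
  have hΦ : ∀ z ∈ U, ∀ t ∈ Icc (0 : ℝ) 1, ContDiffAt ℝ ∞ Φ (z, t) := by
    intro z hzU t ht
    refine ContDiffAt.sum fun j _ => contDiffAt_const.mul ?_
    have h1 : ContDiffAt ℝ ∞ (dz j G) (z - ((t : ℂ) * f z) • u) :=
      contDiffAt_dz j (hol.1.contDiffAt (hB'.mem_nhds (hin z hzU t ht).2))
    have h2 : ContDiffAt ℝ ∞ (fun w : E N × ℝ => f w.1) (z, t) :=
      (hG.hol.1.contDiffAt (hG.opn.mem_nhds hzU.1)).comp (z, t) contDiffAt_fst
    have h3 : ContDiffAt ℝ ∞ (fun w : E N × ℝ => (w.2 : ℂ)) (z, t) :=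
      ofRealCLM.contDiff.contDiffAt.comp (z, t) contDiffAt_snd
    have h4 : ContDiffAt ℝ ∞ (fun w : E N × ℝ => w.1 - ((w.2 : ℂ) * f w.1) • u) (z, t) :=
      contDiffAt_fst.sub ((h3.mul h2).smul contDiffAt_const)
    exact ContDiffAt.comp (z, t) h1 h4
  refine ⟨U, fun z => ∫ t in Icc (0 : ℝ) 1, Φ (z, t), hUo, ⟨hG.mem, ?_⟩, fun z hzU => ?_,
    MP_9fca84_an.H66.param_smooth isCompact_Icc hUo hΦ, fun z hzU => ?_⟩
  · show ‖q - q‖ + ‖f q‖ * ‖u‖ < r
    simpa [hfq] using hr
  · simpa using hin z hzU 0 ⟨le_rfl, zero_le_one⟩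
  · have hint : IntegrableOn (fun t => Φ (z, t)) (Icc (0 : ℝ) 1) :=
      MP_9fca84_an.H66.slice_integrableOn isCompact_Icc (hΦ z hzU)
    have hd : ∀ t ∈ uIcc (0 : ℝ) 1, HasDerivAt (fun s : ℝ => G (z - ((s : ℂ) * f z) • u))
        (-(Φ (z, t) * f z)) t := by
      intro t ht
      rw [uIcc_of_le zero_le_one] at ht
      have hm := (hin z hzU t ht).2
      have h1 : HasDerivAt (fun s : ℝ => z - ((s : ℂ) * f z) • u) (-(f z • u)) t := by
        have := ((ofRealCLM.hasDerivAt (x := t)).mul_const (f z)).smul_const u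
        simpa using this.const_sub z
      have h2 := (ContDiffAt.da (hol.1.contDiffAt (hB'.mem_nhds hm))).hasFDerivAt.comp_hasDerivAt
        t h1
      refine h2.congr_deriv ?_
      rw [fderiv_eq]
      simp only [Φ, Finset.sum_mul, ← Finset.sum_neg_distrib]
      refine Finset.sum_congr rfl fun j _ => ?_
      rw [hol.2 j _ hm]
      simp only [PiLp.neg_apply, PiLp.smul_apply, smul_eq_mul]
      ring
    have hi : IntervalIntegrable (fun t => -(Φ (z, t) * f z)) volume 0 1 :=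
      ((intervalIntegrable_iff_integrableOn_Icc_of_le zero_le_one).2 hint).mul_const (f z) |>.neg
    have h3 := intervalIntegral.integral_eq_sub_of_hasDerivAt hd hi
    have h4 : G (z - f z • u) = 0 := by
      have := hin z hzU 1 ⟨zero_le_one, le_rfl⟩
      rw [ofReal_one, one_mul] at this
      exact hz _ ⟨this.2, hG.ft z hzU.1⟩
    rw [intervalIntegral.integral_neg, intervalIntegral.integral_mul_const,
      intervalIntegral.integral_of_le zero_le_one, ← integral_Icc_eq_integral_Ioc] at h3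
    simp only [ofReal_one, one_mul, ofReal_zero, zero_mul, zero_smul, sub_zero, h4,
      zero_sub, neg_inj] at h3
    exact h3.symm

end Pool.Agent.MP_fcd29e_an.H16
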