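import Pool.Agent.MP_fcd29e_an.H81.Spec2

/-! The extension in the thin case. -/

set_option autoImplicit false

open Pool.Agent.MP_fcd29e_an.H81 MeasureTheory Complex Set Filter Topology Metric
open scoped ContDiff ComplexConjugate ENNReal NNReal

namespace Pool.Agent.MP_fcd29e_an.H16

noncomputable section

variable {N : ℕ}

/-- The logarithmic derivative. -/
def lg (k : Fin N) (g : E N → ℂ) (y : E N) : ℂ := dzb k g y / g y

theorem lg_smooth {g : E N → ℂ} {z : E N} (hg : ContDiffAt ℝ ∞ g z) (h0 : g z ≠ 0) (k : Fin N) :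
    ContDiffAt ℝ ∞ (lg k g) z := by
  have : lg k g = fun y => dzb k g y * (g y)⁻¹ := by funext y; rw [lg, div_eq_mul_inv]
  rw [this]
  exact (contDiffAt_dzb k hg).mul (hg.inv h0)

theorem lg_symm {g : E N → ℂ} {z : E N} (hg : ContDiffAt ℝ ∞ g z) (h0 : g z ≠ 0) (j k : Fin N) :
    dzb j (lg k g) z = dzb k (lg j g) z := by
  have e : ∀ k, lg k g = fun y => dzb k g y * (g y)⁻¹ := fun k => by
    funext y; rw [lg, div_eq_mul_inv]
  have hi : DifferentiableAt ℝ (fun y => (g y)⁻¹) z := ContDiffAt.da (hg.inv h0)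
  rw [e, e, dzb_mul j (ContDiffAt.da (contDiffAt_dzb k hg)) hi,
    dzb_mul k (ContDiffAt.da (contDiffAt_dzb j hg)) hi,
    dzb_comp_hol j (h := fun x => x⁻¹) (ContDiffAt.da hg) (hasDerivAt_inv h0),
    dzb_comp_hol k (h := fun x => x⁻¹) (ContDiffAt.da hg) (hasDerivAt_inv h0),
    dzb_dzb_comm j k hg]
  ring

theorem ext_cont {ρ : E N → ℝ} {K : Set (E N)} (hρ : Dom ρ) (hK : KS ρ K) {z : E N} (hz : z ∈ K)
    {F G : E N → ℂ} (hF : ContinuousAt F z) (hG : ContinuousAt G z)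
    (h : ∀ᶠ y in 𝓝 z, y ∉ K → F y = G y) : F z = G z := by
  have hz0 : z ≠ 0 := fun h0 => hK.cone.1 (h0 ▸ hz)
  have hfr : ∃ᶠ y in 𝓝 z, y ∉ K := by
    intro h1
    have h2 : ρ =ᶠ[𝓝 z] fun _ => 0 := h1.mono fun y hy => hK.bd y (not_not.1 hy)
    exact hρ.reg z hz0 (hK.bd z hz) (by rw [h2.fderiv_eq]; simp)
  exact tendsto_nhds_unique_of_frequently_eq hF hG ((hfr.and_eventually h).mono fun y hy => hy.2 hy.1)

theorem th4 (L : Lv0) (h2 : StmtD2) (hf : StmtFL) (h1 : StmtTH1) (h3 : StmtTH3) : StmtTH4 := by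
  classical
  intro N ρ K hρ hK hPN hTh T
  have hG := h1 N ρ K hρ hK hPN hTh
  obtain ⟨s, S, hs, hS, hinv, hpos, hloc⟩ := h3 N ρ K hρ hK hG
  have hK0 : ∀ z ∈ K, z ≠ 0 := fun z hz h0 => hK.cone.1 (h0 ▸ hz)
  have hE : ∀ z : E N, z ≠ 0 → E0 N ∈ 𝓝 z := fun z hz => isOpen_E0.mem_nhds hz
  have hSc : ∀ z : E N, z ≠ 0 → ContDiffAt ℝ ∞ (cx S) z := fun z hz =>
    contDiffAt_cx (hS.contDiffAt (hE z hz))
  -- local data
  have hq : ∀ q ∈ K, ∃ (V : Set (E N)) (f ψ : E N → ℂ) (u : E N), IsOpen V ∧ q ∈ V ∧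
      (∀ z ∈ V, z ≠ 0 ∧ ContDiffAt ℝ ∞ ψ z ∧ ψ z ≠ 0 ∧ cx S z ≠ 0 ∧ av ρ z u ≠ 0 ∧
        (z ∈ K → ψ z = S z * av ρ z u) ∧ (z ∉ K → ∀ k, lg k s z = lg k ψ z)) := by
    intro q hqK
    obtain ⟨B, f, u, g⟩ := hG q hqK
    obtain ⟨B', ψ, o1, m1, s1, c1, e1, e2⟩ := hloc q hqK B f u g
    have hB0 : ∀ z ∈ B', z ≠ 0 := fun z hz => (g.reg (s1 hz)).1
    have c2 : ContinuousOn (fun z => ψ z * cx S z) B' := c1.continuousOn.mul
      fun z hz => (hSc z (hB0 z hz)).continuousAt.continuousWithinAt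
    refine ⟨B' ∩ (fun z => ψ z * cx S z) ⁻¹' {0}ᶜ, f, ψ, u,
      c2.isOpen_inter_preimage o1 isOpen_compl_singleton, ⟨m1, ?_⟩, fun z hz => ?_⟩
    · have hS0 : (S q : ℂ) ≠ 0 := by exact_mod_cast (hpos q hqK).ne'
      show ψ q * cx S q ≠ 0
      rw [e2 q ⟨m1, hqK⟩]
      exact mul_ne_zero (mul_ne_zero hS0 (g.tr q g.mem)) hS0
    · have hne : ψ z * cx S z ≠ 0 := hz.2
      have hψ := c1.contDiffAt (o1.mem_nhds hz.1)
      refine ⟨hB0 z hz.1, hψ, left_ne_zero_of_mul hne, right_ne_zero_of_mul hne,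
        g.tr z (s1 hz.1), fun hzK => e2 z ⟨hz.1, hzK⟩, fun hzK k => ?_⟩
      have hf0 : f z ≠ 0 := fun h => hzK ((g.zero z (s1 hz.1)).1 h)
      have hev : s =ᶠ[𝓝 z] fun y => f y * ψ y := by
        filter_upwards [o1.mem_nhds hz.1] with y hy using e1 y hy
      rw [lg, lg, dzb_congr hev, e1 z hz.1, dzb_mul k
        (ContDiffAt.da (g.hol.1.contDiffAt (g.opn.mem_nhds (s1 hz.1)))) (ContDiffAt.da hψ),
        g.hol.2 k z (s1 hz.1), zero_mul, zero_add, mul_div_mul_left _ _ hf0]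
  choose! V f ψ u hVo hVm hV using hq
  let α : Fin N → E N → ℂ := fun k z =>
    (if z ∈ K then lg k (ψ z) z else lg k s z) - lg k (cx S) z
  have hoff : ∀ k z, z ∉ K → α k z = lg k s z - lg k (cx S) z := fun k z hz => by
    simp only [α, if_neg hz]
  -- the local formula
  have hA : ∀ q ∈ K, ∀ z ∈ V q, ∀ k, α k z = lg k (ψ q) z - lg k (cx S) z := by
    intro q hqK z hz k
    by_cases hzK : z ∈ K
    · simp only [α, if_pos hzK]
      congr 1
      have a1 := hV z hzK z (hVm z hzK)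
      have a2 := hV q hqK z hz
      refine ext_cont hρ hK hzK (lg_smooth a1.2.1 a1.2.2.1 k).continuousAt
        (lg_smooth a2.2.1 a2.2.2.1 k).continuousAt ?_
      filter_upwards [(hVo z hzK).mem_nhds (hVm z hzK), (hVo q hqK).mem_nhds hz] with y y1 y2 hy
      rw [← (hV z hzK y y1).2.2.2.2.2.2 hy k, (hV q hqK y y2).2.2.2.2.2.2 hy k]
    · rw [hoff k z hzK, (hV q hqK z hz).2.2.2.2.2.2 hzK k]
  have hAe : ∀ q ∈ K, ∀ z ∈ V q, ∀ k,
      α k =ᶠ[𝓝 z] fun y => lg k (ψ q) y - lg k (cx S) y := by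
    intro q hqK z hz k
    filter_upwards [(hVo q hqK).mem_nhds hz] with y hy using hA q hqK y hy k
  have hsm : ∀ q ∈ K, ∀ z ∈ V q, ∀ k, ContDiffAt ℝ ∞ (α k) z := by
    intro q hqK z hz k
    have a := hV q hqK z hz
    exact ((lg_smooth a.2.1 a.2.2.1 k).sub
      (lg_smooth (hSc z a.1) a.2.2.2.1 k)).congr_of_eventuallyEq (hAe q hqK z hz k)
  have hsK : ∀ z ∈ K, ∀ k, ContinuousAt (α k) z := fun z hz k =>
    (hsm z hz z (hVm z hz) k).continuousAt
  -- homogeneity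
  have hs0 : Hom (E0 N) 0 0 s := fun c hc z _ => by simp [(hinv c hc z).1]
  have hS0 : Hom (E0 N) 0 0 (cx S) := fun c hc z _ => by simp [cx, (hinv c hc z).2]
  have p1 := (L.pf N).1 _ _ _ _ isOpen_E0 cone_E0 hs0
  have p2 := (L.pf N).1 _ _ _ _ isOpen_E0 cone_E0 hS0
  have hKc : ∀ c : ℂ, c ≠ 0 → ∀ z, z ∉ K → c • z ∉ K := fun c hc z hz h =>
    hz (by simpa [smul_smul, hc] using hK.cone.2 c⁻¹ (inv_ne_zero hc) _ h)
  have hh0 : ∀ k (c : ℂ), c ≠ 0 → ∀ z, z ≠ 0 → z ∉ K → α k (c • z) = (conj c)⁻¹ * α k z := by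
    intro k c hc z hz hzK
    rw [hoff k _ (hKc c hc z hzK), hoff k z hzK]
    simp only [lg]
    rw [(p1.1 k).2 c hc z hz, (p2.1 k).2 c hc z hz, hs0 c hc z hz, hS0 c hc z hz]
    simp only [zpow_zero, one_mul, zero_sub, zpow_neg, zpow_one]
    ring
  have hh : ∀ k (c : ℂ), c ≠ 0 → ∀ z, z ≠ 0 → α k (c • z) = (conj c)⁻¹ * α k z := by
    intro k c hc z hz
    by_cases hzK : z ∈ K
    · refine ext_cont hρ hK hzK (F := fun y => α k (c • y)) (G := fun y => (conj c)⁻¹ * α k y)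
        (ContinuousAt.comp (hsK _ (hK.cone.2 c hc z hzK) k) (by fun_prop))
        (continuousAt_const.mul (hsK z hzK k)) ?_
      filter_upwards [hE z hz] with y hy hyK using hh0 k c hc y hy hyK
    · exact hh0 k c hc z hz hzK
  have hr0 : ∀ z, z ≠ 0 → z ∉ K → ∑ k, conj (z k) * α k z = 0 := by
    intro z hz hzK
    have a1 := (p1.2 z hz (ContDiffAt.da (hs.contDiffAt (hE z hz)))).2
    have a2 := (p2.2 z hz (ContDiffAt.da (hSc z hz))).2
    simp only [hoff _ z hzK, lg, mul_sub, Finset.sum_sub_distrib, ← mul_div_assoc,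
      ← Finset.sum_div, a1, a2]
    simp
  let U : Set (E N) := ⋃ c : ℂ, ⋃ _ : c ≠ 0, ⋃ q ∈ K, (fun z : E N => c • z) ⁻¹' V q
  have hU : ∀ z, z ∈ U ↔ ∃ c : ℂ, c ≠ 0 ∧ ∃ q ∈ K, c • z ∈ V q := fun z => by simp [U]
  have hUo : IsOpen U := isOpen_iUnion fun c => isOpen_iUnion fun _ =>
    isOpen_biUnion fun q hqK => (hVo q hqK).preimage (by fun_prop)
  have hU0 : ∀ z ∈ U, z ≠ 0 := by
    intro z hz h0
    obtain ⟨c, -, q, hqK, h⟩ := (hU z).1 hz
    exact (hV q hqK _ h).1 (by rw [h0, smul_zero])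
  have hKU : K ⊆ U := fun z hz => (hU z).2 ⟨1, one_ne_zero, z, hz, by simpa using hVm z hz⟩
  refine ⟨U, α, hUo, ⟨fun h => hU0 0 h rfl, fun c hc z hz => ?_⟩, hKU,
    ⟨fun k z hz => ?_, fun k c hc z hz => ?_, fun z hz => ?_, fun j k => ?_,
      fun z hz w hw j => ?_⟩⟩
  · obtain ⟨c', hc', q, hqK, h⟩ := (hU z).1 hz
    refine (hU _).2 ⟨c' * c⁻¹, mul_ne_zero hc' (inv_ne_zero hc), q, hqK, ?_⟩
    rwa [smul_smul, inv_mul_cancel_right₀ hc]
  · obtain ⟨c, hc, q, hqK, h⟩ := (hU z).1 hz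
    have a1 : ContDiffAt ℝ ∞ (fun y : E N => conj c * α k (c • y)) z :=
      contDiffAt_const.mul (ContDiffAt.comp z (hsm q hqK _ h k) (contDiff_const_smul c).contDiffAt)
    refine (a1.congr_of_eventuallyEq ?_).contDiffWithinAt
    have hc' : conj c ≠ 0 := by simpa using hc
    filter_upwards [hE z (hU0 z hz)] with y hy
    rw [hh k c hc y hy, mul_inv_cancel_left₀ hc']
  · rw [hh k c hc z (hU0 z hz)]
    simp
  · by_cases hzK : z ∈ K
    · refine ext_cont hρ hK hzK (F := fun y => ∑ k, conj (y k) * α k y) (G := fun _ => 0)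
        ?_ continuousAt_const ?_
      · exact tendsto_finsetSum _ fun k _ =>
          ((contDiffAt_conj (n := ∞) (contDiff_coord k).contDiffAt).continuousAt.mul (hsK z hzK k))
      · filter_upwards [hE z (hK0 z hzK)] with y hy hyK using hr0 y hy hyK
    · exact hr0 z (hU0 z hz) hzK
  · refine (hf N K U hUo hKU).2.1 T _ fun q hqK => ?_
    filter_upwards [(hVo q hqK).mem_nhds (hVm q hqK)] with z hz
    have a := hV q hqK z hz
    have d1' := fun l => ContDiffAt.da (lg_smooth a.2.1 a.2.2.1 l)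
    have d2' := fun l => ContDiffAt.da (lg_smooth (hSc z a.1) a.2.2.2.1 l)
    show dzb j (α k) z - dzb k (α j) z = 0
    rw [dzb_congr (hAe q hqK z hz k), dzb_congr (hAe q hqK z hz j), dzb_sub j (d1' k) (d2' k),
      dzb_sub k (d1' j) (d2' j), lg_symm a.2.1 a.2.2.1 j k, lg_symm (hSc z a.1) a.2.2.2.1 j k,
      sub_self]
  · have a := hV z hz z (hVm z hz)
    have hz0 := hK0 z hz
    obtain ⟨β, hβ⟩ := (((L.pf N).2.2.2 ρ hρ).2.2.2.2.2.2 z hz0 (hK.bd z hz)).2.2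
      (hK.null z hz) w hw
    have hρz : ContDiffAt ℝ ∞ (cx ρ) z := contDiffAt_cx (hρ.smooth.contDiffAt (hE z hz0))
    have dl' : ∀ l, DifferentiableAt ℝ (fun y => dz l (cx ρ) y * u z l) z := fun l =>
      (ContDiffAt.da (contDiffAt_dz l hρz)).mul_const _
    have dav : DifferentiableAt ℝ (fun y => av ρ y (u z)) z :=
      DifferentiableAt.fun_sum fun l _ => dl' l
    have dS := ContDiffAt.da (hSc z hz0)
    have hD := ((h2 N ρ K hρ hK).2 ((h2 N ρ K hρ hK).1 hPN) z hz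
      (fun y => ψ z y - cx S y * av ρ y (u z)) ((ContDiffAt.da a.2.1).fun_sub (dS.fun_mul dav))
      (by
        filter_upwards [(hVo z hz).mem_nhds (hVm z hz)] with y hy hyK
        rw [(hV z hz y hy).2.2.2.2.2.1 hyK, sub_self]) w hw).2.2
    have e1 : ∀ k, dzb k (fun y => av ρ y (u z)) z = ∑ l, dz l (dzb k (cx ρ)) z * u z l := by
      intro k
      rw [show (fun y => av ρ y (u z)) = fun y => ∑ l, dz l (cx ρ) y * u z l from rfl,
        dzb_sum k _ fun l _ => dl' l]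
      refine Finset.sum_congr rfl fun l _ => ?_
      rw [dzb_mul k (ContDiffAt.da (contDiffAt_dz l hρz)) (differentiableAt_const _), dzb_const,
        mul_zero, add_zero, dz_dzb_comm l k hρz]
    have e2 : ∑ k, conj (w k) * dzb k (fun y => av ρ y (u z)) z = β * av ρ z (u z) := by
      simp only [e1]
      simp only [Finset.mul_sum, av]
      rw [Finset.sum_comm]
      refine Finset.sum_congr rfl fun l _ => ?_
      rw [← mul_assoc, ← hβ l, Finset.sum_mul]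
      exact Finset.sum_congr rfl fun k _ => (mul_assoc _ _ _).symm
    have e3 : ∑ k, conj (w k) * dzb k (ψ z) z =
        (∑ k, conj (w k) * dzb k (cx S) z) * av ρ z (u z) + cx S z * (β * av ρ z (u z)) := by
      rw [← e2, Finset.sum_mul, Finset.mul_sum, ← Finset.sum_add_distrib, ← sub_eq_zero,
        ← Finset.sum_sub_distrib, ← hD]
      refine Finset.sum_congr rfl fun k _ => ?_
      rw [dzb_sub k (ContDiffAt.da a.2.1) (dS.fun_mul dav), dzb_mul k dS dav]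
      ring
    have e4 : ∑ k, conj (w k) * α k z = β := by
      simp only [hA z hz z (hVm z hz), lg, mul_sub, Finset.sum_sub_distrib, ← mul_div_assoc,
        ← Finset.sum_div, e3]
      have b1 := a.2.2.2.1
      have b2 := a.2.2.2.2.1
      rw [show ψ z z = cx S z * av ρ z (u z) from a.2.2.2.2.2.1 hz]
      field_simp
      ring
    rw [e4, hβ j]

end

end Pool.Agent.MP_fcd29e_an.H16
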